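import Pool.Agent.helper70.FI4.SpecK

set_option autoImplicit false

namespace Pool.Agent.FI4

open Pool.Agent.helper58.DC Pool.Agent.DI Pool.Agent.GR Pool.Agent.OB Pool.Agent.DR Pool.Agent.FI Pool.Agent.FI3

theorem KDG_index {p : ℕ} (hp : p.Prime) {G : Type} [Group G] [Finite G] {D C : Subgroup G}
    (hDC : D ≤ C) (h : Nat.card D = pp p C) : ¬ p ∣ D.relIndex C := by
  intro hd
  have hC0 : Nat.card C ≠ 0 := Nat.card_pos.ne'
  have h1 : Nat.card D * D.relIndex C = Nat.card C := by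
    have h2 := Subgroup.relIndex_mul_relIndex (⊥ : Subgroup G) D C bot_le hDC
    rw [Subgroup.relIndex_bot_left, Subgroup.relIndex_bot_left] at h2
    exact h2
  obtain ⟨k, hk⟩ := hd
  have hF : Fact p.Prime := ⟨hp⟩
  have h3 : p ^ (padicValNat p (Nat.card C) + 1) ∣ Nat.card C := by
    refine ⟨k, ?_⟩
    calc Nat.card C = Nat.card D * D.relIndex C := h1.symm
      _ = pp p C * (p * k) := by rw [h, hk]
      _ = p ^ (padicValNat p (Nat.card C) + 1) * k := by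
          unfold pp
          rw [pow_succ]
          ring
  have h4 := (padicValNat_dvd_iff_le hC0).1 h3
  omega

theorem KDG_syl {p : ℕ} (hp : p.Prime) {G : Type} [Group G] [Finite G] (C : Subgroup G) :
    ∃ Q : Subgroup G, Q ≤ C ∧ IsPGroup p Q ∧ Nat.card Q = pp p C := by
  haveI : Fact p.Prime := ⟨hp⟩
  obtain ⟨P⟩ : Nonempty (Sylow p C) := inferInstance
  refine ⟨(P : Subgroup C).map C.subtype, ?_, ?_, ?_⟩
  · rintro _ ⟨y, -, rfl⟩
    exact y.2
  · exact P.2.map C.subtype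
  · rw [Nat.card_congr ((P : Subgroup C).equivMapOfInjective C.subtype C.subtype_injective).symm.toEquiv]
    have h := Sylow.card_eq_multiplicity P
    rw [Nat.factorization_def _ hp] at h
    exact h

theorem KDG_mem_map_conj {G : Type} [Group G] {X : Subgroup G} {g a : G} (ha : a ∈ X) :
    g * a * g⁻¹ ∈ X.map (MulAut.conj g).toMonoidHom := ⟨a, ha, rfl⟩

theorem KDG (hDEX : DEX_stmt) (hCLS : CLS_stmt) (hTPR : Pool.Agent.FI.TPR_stmt) (hDG2 : DG2_stmt) (hKUP : KUP_stmt) (hKBL : KBL_stmt) (hKIN : KIN_stmt) (hKG1 : KG1_stmt) (hCFA : CFA_stmt) (hFOV : FOV_stmt) (hCON : CON_stmt) (hKHT : KHT_stmt) : KDG_stmt := by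
  intro p M hS G Gb _ _ _ _ D x θ χ hRt hdef R π hQ hRD hne χ' hχ' hind
  have hpr : p.Prime := hS.pr
  haveI hF : Fact p.Prime := ⟨hpr⟩
  obtain ⟨hT1, -, -, -, hT5⟩ := hTPR p M hS Gb
  obtain ⟨hG1, hG2, -, -, -⟩ := hTPR p M hS G
  obtain ⟨D', x', hD', -⟩ := hDEX p M hS Gb ⊤ χ' (by rw [hT1]; exact hχ')
  have hom : ∀ y : Gb, omega χ' y = cc χ' (cls ⊤ y) := fun y => (hCLS Gb ⊤ y).2.2.2.2.2.2.2.1 χ'
  have hint : ∀ y : Gb, IsIntegral ℤ (cc χ' (cls ⊤ y)) := fun y =>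
    (hCLS Gb ⊤ y).2.2.2.2.2.2.2.2 ⊤ le_rfl χ' (by rw [hT1]; exact hχ')
  have hcard : Nat.card D' = pp p (Subgroup.centralizer ({x'} : Set Gb)) := by
    have h := hD'.card
    rwa [hT5] at h
  have hle : D' ≤ Subgroup.centralizer {x'} := by
    have h := hD'.le
    rwa [hT5] at h
  have hmin : ∀ y : Gb, ¬ InM M (cc χ' (cls ⊤ y)) → Nat.card D' ≤ pp p (Subgroup.centralizer ({y} : Set Gb)) := by
    intro y hy
    have h := hD'.min y (Subgroup.mem_top _) hy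
    rwa [hT5] at h
  have hDA : DefAt p M χ' D' x' := by
    refine ⟨hD'.reg, ?_, hle, hD'.pg, hcard, ?_⟩
    · rw [hom]
      exact hD'.ne
    · intro y hy
      rw [hom] at hy
      exact hmin y hy
  have hnv : ∀ y : Gb, Pool.Agent.MAP.NonVan M χ' y ↔ ¬ InM M (cc χ' (cls ⊤ y)) := by
    intro y
    constructor
    · intro h h1
      have h2 : InM M (((⟨cc χ' (cls ⊤ y), hint y⟩ : integralClosure ℤ ℂ)) : ℂ) := h1
      exact h _ (InM.mem hS h2) (hom y)
    · intro h a ha h1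
      apply h
      rw [← hom, h1]
      exact InM.coe hS ha
  have hDG : Pool.Agent.MAP.DefectGroup p M χ' D' := by
    refine ⟨x', hD'.reg, (hnv _).2 hD'.ne, hle, hD'.pg, KDG_index hpr hle hcard, ?_⟩
    intro y hy
    obtain ⟨Q, hQ1, hQ2, hQ3⟩ := KDG_syl hpr (Subgroup.centralizer ({y} : Set Gb))
    exact ⟨Q, hQ1, hQ2, by rw [hQ3]; exact hmin y ((hnv y).1 hy)⟩
  -- the character of the centraliser
  obtain ⟨θ', hθ', hθi⟩ := hDG2 p M hS Gb χ' hχ' D' x' hDA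
  have hcn : ∀ (Γ : Type) [Group Γ] (P : Subgroup Γ), cz P ≤ nz P := by
    intro Γ _ P
    exact Subgroup.centralizer_le_normalizer _
  have hcn2 : ∀ (Γ : Type) [Group Γ] (P : Subgroup Γ), nz P ≤ nz (cz P) := by
    intro Γ _ P g hg
    refine Subgroup.mem_normalizer_iff.2 fun h => ⟨fun hh => cz_conj hg hh, fun hh => ?_⟩
    have h1 := cz_conj ((nz P).inv_mem hg) hh
    have h2 : g⁻¹ * (g * h * g⁻¹) * g⁻¹⁻¹ = h := by group
    rwa [h2] at h1
  obtain ⟨φ, hφ, e, he, hov⟩ := hKUP Gb (cz D') (nz D') (hcn Gb D') (hcn2 Gb D') θ' hθ'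
  have hφi : Induces M φ χ' :=
    (hFOV p M hS Gb D' (nz D') hD'.pg Subgroup.le_normalizer (hcn Gb D') le_rfl φ hφ θ' hθ' e he hov χ').2 hθi
  obtain ⟨-, hGG, hK1, -, hK2, -, -, -⟩ := hKG1 p G Gb R π hQ
  obtain ⟨-, -, hXp, hXn⟩ := hK1 D'
  obtain ⟨-, hI2, -, -⟩ := hKIN p G Gb R π hQ
  set X : Subgroup G := D'.comap π with hX
  have hXpg : IsPGroup p X := hXp.1 hD'.pg
  have hf : (fun g => φ (π g)) ∈ IrrOn (nz X) := by
    rw [← hXn]
    exact hI2 (nz D') φ hφ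
  have hfi : Induces M (fun g => φ (π g)) χ := by
    have h1 := (hKBL p M hS G Gb R π hQ).1 φ χ' hφi
    rw [hG2] at h1 hind ⊢
    exact h1.trans hind
  obtain ⟨ψ, hψ, e', he', hov'⟩ := (hCFA G (cz X) (nz X) (hcn G X) (hcn2 G X)).1 _ hf
  have hψi : Induces M ψ χ :=
    (hFOV p M hS G X (nz X) hXpg Subgroup.le_normalizer (hcn G X) le_rfl _ hf ψ hψ e' he' hov' χ).1 hfi
  obtain ⟨g, hg, -⟩ := hCON p M hS G D x θ χ hRt X hXpg ψ hψ hψi
  have hXc : ∀ a ∈ X, ∀ b ∈ X, a * b = b * a := by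
    intro a ha b hb
    have h1 := hRt.com _ (hg (KDG_mem_map_conj (g := g) ha)) _ (hg (KDG_mem_map_conj (g := g) hb))
    have h2 : g * (a * b) * g⁻¹ = g * (b * a) * g⁻¹ := by
      calc g * (a * b) * g⁻¹ = (g * a * g⁻¹) * (g * b * g⁻¹) := by group
        _ = (g * b * g⁻¹) * (g * a * g⁻¹) := h1
        _ = g * (b * a) * g⁻¹ := by group
    exact mul_left_cancel (mul_right_cancel h2)
  have hD'c : ∀ a ∈ D', ∀ b ∈ D', a * b = b * a := by
    intro a ha b hb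
    obtain ⟨a', rfl⟩ := hQ.sur a
    obtain ⟨b', rfl⟩ := hQ.sur b
    have h1 := hXc a' ha b' hb
    rw [← map_mul, h1, map_mul]
  -- `D'` is not trivial
  have hD'1 : D' ≠ ⊥ := by
    intro h0
    have hDp : IsPGroup p D := hRt.dfa.pgrp
    obtain ⟨a, ha⟩ := IsPGroup.iff_card.1 hDp
    have hBl : (fun g => χ' (π g)) ∈ Blk M χ ⊤ := by
      refine ⟨?_, hind⟩
      have h1 := hI2 ⊤ χ' (by rw [hT1]; exact hχ')
      rwa [Subgroup.comap_top] at h1
    obtain ⟨n, hn, hna⟩ := hdef _ hBl a ha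
    have hn' : χ' 1 = n := by
      have h1 : χ' (π 1) = n := hn
      rwa [map_one] at h1
    have hh := hKHT p M hS Gb χ' hχ' D' x' hD' n hn'
    rw [h0, Subgroup.card_bot, padicValNat.one, add_zero] at hh
    obtain ⟨r, hr⟩ := IsPGroup.iff_card.1 hQ.pg
    have hv : padicValNat p (Nat.card G) = r + padicValNat p (Nat.card Gb) := by
      rw [hGG, padicValNat.mul Nat.card_pos.ne' Nat.card_pos.ne', hr, padicValNat.prime_pow]
    rw [Subgroup.card_top] at hna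
    have har : a ≤ r := by omega
    have hcr : Nat.card D ≤ Nat.card R := by
      rw [ha, hr]
      exact Nat.pow_le_pow_right hpr.pos har
    exact hne (Subgroup.eq_of_le_of_card_ge hRD hcr)
  refine ⟨D', hDG, le_rfl, ?_⟩
  obtain ⟨z, hz1⟩ := (Subgroup.ne_bot_iff_exists_ne_one).1 hD'1
  have hcm : ⁅D', D'⁆ = ⊥ := by
    rw [Subgroup.commutator_eq_bot_iff_le_centralizer]
    intro c hc
    rw [Subgroup.mem_centralizer_iff]
    intro d hd
    exact hD'c d hd c hc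
  refine ⟨z, z.2, fun d hd => hD'c _ z.2 d hd, ?_⟩
  rw [Nat.sub_self, pow_zero, pow_one, hcm, Subgroup.mem_bot]
  intro h
  exact hz1 (Subtype.ext h)

end Pool.Agent.FI4
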